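import Mathlib
import Pool.Agent.Helper97_PGH.TowerDefs
import Pool.Agent.Helper3_PQE.Quo
import Pool.Agent.Helper3_PQE.Out

open CategoryTheory AlgebraicGeometry PGH PGL Pool.Agent.PN MvPolynomial

universe u

/-!
# Towers of varieties branched over many fibres of several rational functions

For every `e` there are a function `N₀ : ℕ → ℕ` and non-zero polynomials `Φ n N` with integer
coefficients in the `n * N` variables `a l j` (`N ≥ N₀ n`) with the following property.  Let `k` be
algebraically closed of characteristic zero and `X` a variety over `k`.  A step `F ≤ F'` between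
subfields of `k(X)` is given by elements `x l` of `k(X)` (`l < n`), algebraically independent over
`k`, such that `F'` is algebraic over the field generated by `F` and the `x l`, by finite subsets
`A l` of `k`, by a non-zero polynomial `H` over `k` of degree at most `e` in each variable and by a
finite subset `T` of `k(X)`, such that for all germs of curves outside `H (x) = 0` on which the
elements of `T ∩ F` are defined and non-zero: where `x l` takes a value in `A l` with multiplicity
one, some other `x m` takes a value in `A m`.  It is required that

* either `n = 2` and the sets `A 0` and `A 1` have at least `N₀ 2` elements,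
* or `A l = {a l j : j < N}`, `N ≥ N₀ n` and `Φ n N (a) ≠ 0`.

(I) If `k(X)` is reached from `k`, or from the function field of a pseudo-geometrically hyperbolic
`Y` dominated by `X`, by finitely many steps, then `X` is pseudo-geometrically hyperbolic.

(II) If `k(X)` is algebraic over the field generated by algebraically independent coordinates `x l`
of a quotient of a product of `n ≥ 2` curves by a finite group `G` which acts faithfully on each
curve, and the sets `A l` have at least `N₀ 2` elements, then `X` is pseudo-geometrically hyperbolic.

(III) Relations `w (x) * ∏ (x l - a) ^ e l a = b * z ^ m`, and quotients of products of curves by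
finite groups, are such steps.
-/

namespace Pool.Agent.Results.MP_5b1cbc_ag.BranchedTowers

open Pool.Agent.BranchedTowers

theorem result (e : ℕ) :
    ∃ (N₀ : ℕ → ℕ) (Φ : ∀ n N : ℕ, MvPolynomial (Fin n × Fin N) ℤ),
      (∀ n N, N₀ n ≤ N → Φ n N ≠ 0) ∧
      ∀ {k : Type u} [Field k] [IsAlgClosed k] [CharZero k],
      (∀ {X : Scheme.{u}} (f : X ⟶ Spec (.of k)) [IsIntegral X] [IsSeparated f]
        [LocallyOfFiniteType f] [QuasiCompact f],
      (Relation.ReflTransGen (Step e N₀ Φ (constants k f)) (constants k f).fieldRange ⊤ →
        IsPGH k f) ∧
      (∀ {Y : Scheme.{u}} (q : Y ⟶ Spec (.of k)) [IsIntegral Y] (g : X ⟶ Y) [IsDominant g],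
        g ≫ q = f → IsPGH k q →
        Relation.ReflTransGen (Step e N₀ Φ (constants k f)) (pullbackField g).fieldRange ⊤ →
        IsPGH k f) ∧
      (FaithfulQuotient e (N₀ 2) (constants k f) → IsPGH k f)) ∧
      ∀ {M : Type u} [Field M] (κ : k →+* M) (F F' : Subfield M),
        RadicalStep e N₀ Φ κ F F' ∨ GroupStep e N₀ Φ κ F F' → Step e N₀ Φ κ F F' :=
  PQE.H3.main_out e

end Pool.Agent.Results.MP_5b1cbc_ag.BranchedTowers
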