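import Pool.Agent.Helper45_PGF.CorB
import Pool.Agent.Helper45_PGF.Target
import Pool.Agent.Helper65_PGF.Symm
import Pool.Agent.Helper69_PGF.Gr

/-!
# Varieties dominated by cyclic covers of uniruled varieties

Let `Y` be a projective variety, given by the weighted homogeneous equations `J` in the
variables `x l` of weight `w l`, and let `V` be an irreducible component, contained in no
coordinate hyperplane, of the locus `x ∈ Y`, `h j (x) = 0`, `(y i) ^ (m i) = g i (x)` in a weighted
projective space. Assume that for the general point `(z, y₀)` of `V` there is a non-constant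
rational curve `C` of degree `e` in `Y` through `z`, that there is none of smaller degree, that
these curves depend on `N` parameters (parametrizations which send the point `0` to `z`), and that
the branch divisor of `y i` meets these curves in `m i * ℓ i` points. If
`∑ (m i - 1) * ℓ i + e * ∑ d j ≤ N` (that is `K_V · C ≤ 0`) and one of the divisibility conditions
of `NumF` holds, then no proper variety `X` which is the target of a generically finite dominant
rational map from `V` is pseudo-geometrically hyperbolic.

The assumption on the curves is automatic for `Y` the weighted projective space (`J = ∅`), with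
`e = 1`, `ℓ = a` and `N = ∑ w l`: this case is part of the statement of `result`. It is also
automatic for `Y` the Grassmannian `G(2, n)`, with `e = 1`, `ℓ = a` and `N = n`: this is the
theorem `grassmannian` below.

Further cases proved below: `V` a complete intersection with `K ≤ 0` whose equations are even in two
variables (`evenCase`), and `V` a hypersurface of degree `2, ..., n + 2` in the projective space of
dimension `n + 1 ≥ 3` which is symmetric in `x 0, x 1` and in `x 2, x 3` (`symmetricCase`), for
example a Fermat hypersurface or a member of the Dwork pencil (`dworkCase`): quartic surfaces,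
quintic threefolds, and every proper variety `X` dominated by them, such as the mirror quintics.
-/

set_option autoImplicit false

open CategoryTheory AlgebraicGeometry

universe u v

namespace Pool.Agent.Results.MP_5b1cbc_ag.CyclicCovers

open Pool.Agent.PGF

theorem result (k : Type u) [Field k] [IsAlgClosed k] [CharZero k]
    (X : Scheme.{u}) (f : X ⟶ Spec (.of k)) [IsIntegral X] [IsProper f]
    -- weights: `w l` of the variable `x l` (`l : Fin n`) and `a i` of the variable `y i`
    -- (`i : Fin r`)
    (n r s : ℕ) (w : Fin n → ℕ) (a m ℓ : Fin r → ℕ) (d : Fin s → ℕ) (e N : ℕ)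
    (hw : Finset.univ.gcd w = 1) (hm : ∀ i, 2 ≤ m i)
    -- the equations `J` of `Y`, and the equations `h j (x) = 0` of degree `d j` and
    -- `(y i) ^ (m i) = g i (x)` of degree `m i * a i`
    (J : Set (MvPolynomial (Fin n) k)) (hJ : ∀ F ∈ J, ∃ D, F.IsWeightedHomogeneous w D)
    (h : Fin s → MvPolynomial (Fin n) k) (hh : ∀ j, (h j).IsWeightedHomogeneous w (d j))
    (g : Fin r → MvPolynomial (Fin n) k) (hg : ∀ i, (g i).IsWeightedHomogeneous w (m i * a i))
    -- `X` is the target of a generically finite dominant rational map from `V`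
    (K : Type v) [Field K] (θ : X.functionField →+* K) (x : Fin n → K) (y : Fin r → K)
    (hV : IsTarget f w a m J g h θ x y)
    -- the curves `C` in `Y` through the general point
    (hC : (J = ∅ ∧ e = 1 ∧ ℓ = a ∧ N = ∑ l, w l) ∨ GenArcs f w m J g θ x y ℓ e N)
    -- the numerical condition
    (hN : NumF m ℓ d e N) :
    ¬ PGH.IsPGH k f := by
  rcases hC with ⟨rfl, rfl, rfl, rfl⟩ | hC
  · exact corB k X f (Fin n) (Fin r) (Fin s) w m ℓ d g h K θ x y hw hm hg hh hV.x_ne
      hV.y_ne hV.component hV.into hV.algebraic hN
  · exact allF k X f (Fin n) (Fin r) (Fin s) w J m a ℓ d e N g h K θ x y hw hJ hm hg hh hV.x_ne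
      hV.y_ne hV.component hV.into hV.algebraic hC hN

/-- The case of the Grassmannian `Y = G(2, n)` in its Plücker embedding. -/
theorem grassmannian (k : Type u) [Field k] [IsAlgClosed k] [CharZero k]
    (X : Scheme.{u}) (f : X ⟶ Spec (.of k)) [IsIntegral X] [IsProper f]
    (n r s : ℕ) (a m : Fin r → ℕ) (d : Fin s → ℕ) (hn : 3 ≤ n) (hm : ∀ i, 2 ≤ m i)
    (h : Fin s → MvPolynomial (Pairs n) k) (hh : ∀ j, (h j).IsHomogeneous (d j))
    (g : Fin r → MvPolynomial (Pairs n) k) (hg : ∀ i, (g i).IsHomogeneous (m i * a i))
    (K : Type v) [Field K] (θ : X.functionField →+* K) (x : Pairs n → K) (y : Fin r → K)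
    (hV : IsTarget f (fun _ => 1) a m (plucker k n) g h θ x y) (hN : NumF m a d 1 n) :
    ¬ PGH.IsPGH k f :=
  H69.grm H69.gr allF k X f n (Fin r) (Fin s) m a d g h K θ x y hn hm hg hh hV.x_ne
    hV.y_ne hV.component hV.into hV.algebraic hN

/-- The case of a component `V`, in no coordinate hyperplane, of a complete intersection `G j = 0`
of degrees `d j` with `∑ d j ≤ N + 2` in the projective space with `N + 2 ≥ 3` variables, whose
equations are even in `x 0` and even in `x 1`. (There are no variables `y`.) -/
theorem evenCase (k : Type u) [Field k] [IsAlgClosed k] [CharZero k]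
    (X : Scheme.{u}) (f : X ⟶ Spec (.of k)) [IsIntegral X] [IsProper f]
    (N s : ℕ) (hN : 1 ≤ N) (d : Fin s → ℕ)
    (G : Fin s → MvPolynomial (Fin (N + 2)) k) (hG : ∀ j, (G j).IsHomogeneous (d j))
    (hev : ∀ j, ∀ μ ∈ (G j).support, Even (μ 0) ∧ Even (μ 1)) (hd : ∑ j, d j ≤ N + 2)
    (K : Type v) [Field K] (θ : X.functionField →+* K) (x : Fin (N + 2) → K)
    (a m : Fin 0 → ℕ) (g : Fin 0 → MvPolynomial (Fin (N + 2)) k) (y : Fin 0 → K)
    (hV : IsTarget f (fun _ => 1) a m ∅ g G θ x y) : ¬ PGH.IsPGH k f :=
  H65.even_two k X f N s hN d G hG hev hd K θ x a m g y hV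

/-- The case of an integral hypersurface `V`: `F = 0` of degree `D`, `2 ≤ D ≤ M + 4`, in the
projective space with `M + 4` variables, which is symmetric in `x 0, x 1` and in `x 2, x 3`. Here
`x` is the generic point of the cone over `V`, `θ` maps `k(X)` into the function field of `V`, and
the latter is algebraic over `k(X)`. -/
theorem symmetricCase (k : Type u) [Field k] [IsAlgClosed k] [CharZero k]
    (X : Scheme.{u}) (f : X ⟶ Spec (.of k)) [IsIntegral X] [IsProper f]
    (M D : ℕ) (hD : 2 ≤ D) (hDM : D ≤ M + 4)
    (F : MvPolynomial (Fin (M + 4)) k) (hF : F.IsHomogeneous D)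
    (h01 : MvPolynomial.rename (Equiv.swap 0 1) F = F)
    (h23 : MvPolynomial.rename (Equiv.swap 2 3) F = F)
    (K : Type v) [Field K] (θ : X.functionField →+* K) (x : Fin (M + 4) → K)
    (hx : RingHom.ker (MvPolynomial.eval₂Hom (θ.comp (PGH.constants k f)) x) = Ideal.span {F})
    (hθ : ∀ κ, θ κ ∈ PGE.homFrac (θ.comp (PGH.constants k f)) (fun _ => 1) x)
    (hfin : ∀ κ ∈ PGE.homFrac (θ.comp (PGH.constants k f)) (fun _ => 1) x,
      ∃ P : Polynomial X.functionField, P ≠ 0 ∧ P.eval₂ θ κ = 0) : ¬ PGH.IsPGH k f :=
  H65.symmetric k X f M D hD hDM F hF h01 h23 K θ x hx hθ hfin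

/-- The case of the Fermat hypersurface (`ψ = 0`) and of the other integral members of the Dwork
pencil `∑ (x l) ^ (M + 4) + ψ ∏ x l = 0` in the projective space with `M + 4` variables. -/
theorem dworkCase (k : Type u) [Field k] [IsAlgClosed k] [CharZero k]
    (X : Scheme.{u}) (f : X ⟶ Spec (.of k)) [IsIntegral X] [IsProper f]
    (M : ℕ) (ψ : k) (K : Type v) [Field K] (θ : X.functionField →+* K) (x : Fin (M + 4) → K)
    (hx : RingHom.ker (MvPolynomial.eval₂Hom (θ.comp (PGH.constants k f)) x) = Ideal.span
      {∑ l, MvPolynomial.X l ^ (M + 4) +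
        MvPolynomial.C ψ * ∏ l, (MvPolynomial.X l : MvPolynomial (Fin (M + 4)) k)})
    (hθ : ∀ κ, θ κ ∈ PGE.homFrac (θ.comp (PGH.constants k f)) (fun _ => 1) x)
    (hfin : ∀ κ ∈ PGE.homFrac (θ.comp (PGH.constants k f)) (fun _ => 1) x,
      ∃ P : Polynomial X.functionField, P ≠ 0 ∧ P.eval₂ θ κ = 0) : ¬ PGH.IsPGH k f :=
  H65.dwork k X f M ψ K θ x hx hθ hfin

end Pool.Agent.Results.MP_5b1cbc_ag.CyclicCovers
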