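import Mathlib
import Pool.Agent.Helper97_PGH.TowerDefs
import Pool.Agent.Helper11_PGL.Asm
import Pool.Agent.Helper40_PGL.GAlg
import Pool.Agent.Helper50_DP.Asm

open CategoryTheory AlgebraicGeometry PGH PGL Pool.Agent.DP

universe u

/-!
# Towers of covers of the plane branched over general lines

`k` is algebraically closed of characteristic zero and `X` is a variety over `k`.  A net step
`F ≤ F'` between subfields of `k(X)` (see `NetStep`) is given by a subfield `V` of `k(X)` with a set
of discrete valuations at which only the constants are regular everywhere (for instance the function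
field of a normal projective variety with its prime divisors), three elements `y 0, y 1, y 2` of
`V` without homogeneous relation over `k` and `N ≥ N₀` general linear forms `L i` over `k`, which
define reduced members of the net of the `y j`, such that the products of the powers
`(L i y / u) ^ A i j` are of the form `b j * z j ^ m j` with `b j` in `F`, where for every index `i`
and every integer `s` some `m j` does not divide `A i j + s * ∑ i, A i j`; the field `F'` is
algebraic over the field generated by `F` and the ratios `y i / y j`.  General means that the
polynomial `Φ N ≠ 0` with integer coefficients does not vanish at the coefficients of the forms;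
`N₀` and `Φ` do not depend on anything.

* If the function field of `X` is reached from `k` by finitely many net steps, then `X` is
  pseudo-geometrically hyperbolic.
* The same holds relatively to a dominant morphism `g : X ⟶ Y` to an integral `k`-scheme which is
  pseudo-geometrically hyperbolic.
* The case of lines in the plane: if `x 0, x 1` are algebraically independent elements of `k(X)`
  over which `k(X)` is algebraic, and if the values at `(1, x)` of `N ≥ N₀` general linear forms
  satisfy the conditions above with `b j = 1`, then `X` is pseudo-geometrically hyperbolic.  So is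
  every surface which is generically finite over a double plane `z ^ 2 = L 1 ⋯ L N` branched over
  `N ≥ N₀` general lines, `N` even: the condition of linear system steps, which involves the points
  of intersection of two lines, is not satisfied there.
-/

namespace Pool.Agent.Results.MP_5b1cbc_ag.GeneralLineCovers

theorem result : ∃ (N₀ : ℕ) (Φ : ∀ N : ℕ, MvPolynomial (Fin N × Fin 3) ℤ),
    (∀ N, N₀ ≤ N → Φ N ≠ 0) ∧
    ∀ {k : Type u} [Field k] [IsAlgClosed k] [CharZero k] {X : Scheme.{u}}
    (f : X ⟶ Spec (.of k)) [IsIntegral X] [IsSeparated f] [LocallyOfFiniteType f]
    [QuasiCompact f],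
    (Relation.ReflTransGen (NetStep N₀ Φ (constants k f).fieldRange)
      (constants k f).fieldRange ⊤ → IsPGH k f) ∧
    (∀ {Y : Scheme.{u}} (q : Y ⟶ Spec (.of k)) [IsIntegral Y] (g : X ⟶ Y) [IsDominant g],
      g ≫ q = f → IsPGH k q →
      Relation.ReflTransGen (NetStep N₀ Φ (constants k f).fieldRange)
        (pullbackField g).fieldRange ⊤ → IsPGH k f) ∧
    ∀ (N r : ℕ) (x : Fin 2 → X.functionField) (L : Fin N → Fin 3 → k)
      (t : X.functionField) (A : Fin N → Fin r → ℤ) (m : Fin r → ℕ)
      (z : Fin r → X.functionField), N₀ ≤ N →
      (∀ p : MvPolynomial (Fin 2) k, MvPolynomial.eval₂ (constants k f) x p = 0 → p = 0) →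
      (∀ i, L i ≠ 0) →
      MvPolynomial.aeval (fun p : Fin N × Fin 3 => L p.1 p.2) (Φ N) ≠ 0 → t ≠ 0 →
      (∀ j, z j ≠ 0 ∧ ∏ i, ((constants k f (L i 0) + constants k f (L i 1) * x 0 +
        constants k f (L i 2) * x 1) / t) ^ A i j = z j ^ m j) →
      (∀ i (s : ℤ), ∃ j, ¬ (m j : ℤ) ∣ A i j + s * ∑ i, A i j) →
      (∀ a : X.functionField, IsAlgebraic
        (Subfield.closure (((constants k f).fieldRange : Set X.functionField) ∪ Set.range x))
          a) → IsPGH k f :=
  main_of step (fin2B asmB) gAlg H47.hyp

end Pool.Agent.Results.MP_5b1cbc_ag.GeneralLineCovers
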