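import Mathlib
import Pool.Agent.Helper97_PGH.TowerDefs
import Pool.Agent.Helper11_PGL.Asm
import Pool.Agent.Helper11_PGL.Cert
import Pool.Agent.Helper11_PGL.Conv
import Pool.Agent.Helper87_PGL.MixDefs
import Pool.Agent.Helper87_PGL.MainM

open CategoryTheory AlgebraicGeometry PGH PGL

universe u

/-!
# Towers of covers, polynomials with power values and diagonal relations

`k` is algebraically closed of characteristic zero and `X` is a variety over `k`.  A step `F ≤ F'`
of a mixed tower between subfields of `k(X)` is of one of three kinds.

* Cover step (see `CovStep`): it is given by a subfield `V` of `k(X)` with a set of discrete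
  valuations at which only the constants are regular everywhere (for instance the function field of
  a normal projective variety with its prime divisors), elements `y 0, …, y n` of `V` and `N ≥ N₀ n`
  linear forms `L i` over `k`, any `n + 1` of them linearly independent, which define reduced
  members of the linear system of the `y j`, at most `d` of them with a common point, such that the
  products of the powers `(L i y / u) ^ a i j` are of the form `b j * z j ^ m j` with `b j` in `F`,
  where for every nonempty set `I` of at most `d` indices and every integer `t` some `m j` does not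
  divide `∑ i ∈ I, a i j + t * ∑ i, a i j`; the field `F'` is algebraic over the field generated by
  `F` and the ratios `y i / y j`.  The function `N₀` does not depend on anything.
* Polynomial step (see `PolyStep`): a separable polynomial of degree at most `n` over `k(X)` takes
  nonzero values `u * b i * z i ^ m`, `b i` in `F`, at `N` distinct constants, where
  `N * (m - 1) > 2 * n * m`; the field `F'` is algebraic over the field generated by `F` and the
  ratios of its coefficients.
* Diagonal step (see `DiagStep`): for every nonempty proper set `A` of indices, the elements `x i`
  satisfy a diagonal relation `∑ i, c i * x i ^ d = 0` with coefficients in `F`, at most `s` of them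
  nonzero, with `s * (s - 2) < d`, and with nonzero partial sum over `A`; the field `F'` is
  algebraic over the field generated by `F` and the ratios `x i / x j`.

Results.

* If the function field of `X` is reached from `k` by finitely many such steps, then `X` is
  pseudo-geometrically hyperbolic.
* The same holds relatively to a dominant morphism `g : X ⟶ Y` to an integral `k`-scheme which is
  pseudo-geometrically hyperbolic.
* The case of hyperplanes: if `x 1, …, x n` are algebraically independent elements of `k(X)` over
  which `k(X)` is algebraic, and if the values at `(1, x)` of `N ≥ N₀ n` linear forms in linear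
  general position satisfy the conditions of a cover step with `b j = 1` and `d = n`, then `X` is
  pseudo-geometrically hyperbolic.
-/

namespace Pool.Agent.Results.MP_5b1cbc_ag.MixedTowers

theorem result : ∃ N₀ : ℕ → ℕ, ∀ {k : Type u} [Field k] [IsAlgClosed k] [CharZero k]
    {X : Scheme.{u}} (f : X ⟶ Spec (.of k)) [IsIntegral X] [IsSeparated f]
    [LocallyOfFiniteType f] [QuasiCompact f],
    (Relation.ReflTransGen (MixStep N₀ (constants k f).fieldRange)
      (constants k f).fieldRange ⊤ → IsPGH k f) ∧
    (∀ {Y : Scheme.{u}} (q : Y ⟶ Spec (.of k)) [IsIntegral Y] (g : X ⟶ Y) [IsDominant g],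
      g ≫ q = f → IsPGH k q →
      Relation.ReflTransGen (MixStep N₀ (constants k f).fieldRange)
        (pullbackField g).fieldRange ⊤ → IsPGH k f) ∧
    ∀ (n N r : ℕ) (x : Fin n → X.functionField) (L : Fin N → Fin (n + 1) → k)
      (u : X.functionField) (a : Fin N → Fin r → ℤ) (m : Fin r → ℕ)
      (z : Fin r → X.functionField), N₀ n ≤ N → u ≠ 0 →
      (∀ p : MvPolynomial (Fin n) k, MvPolynomial.eval₂ (constants k f) x p = 0 → p = 0) →
      (∀ s : Finset (Fin N), s.card = n + 1 → LinearIndependent k (fun i : s => L i)) →
      (∀ j, ∏ i, ((constants k f (L i 0) +
        ∑ l : Fin n, constants k f (L i l.succ) * x l) / u) ^ a i j = z j ^ m j) →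
      (∀ I : Finset (Fin N), I.Nonempty → I.card ≤ n → ∀ t : ℤ, ∃ j,
        ¬ (m j : ℤ) ∣ ∑ i ∈ I, a i j + t * ∑ i, a i j) →
      (∀ b : X.functionField, IsAlgebraic
        (Subfield.closure (((constants k f).fieldRange : Set X.functionField) ∪ Set.range x))
          b) → IsPGH k f :=
  PGL.H87.main_mix (PGL.H87.stepM_stmt (PGL.H87.stepC_stmt (asmT H11.conv)
    (H60.kineq H60.kred (cop (algK H48.dom)) (H22.setup (H22.setD H48.riem) (H22.setK gauss))
      (H60.mat detl_h8 H18.matr H4.matl math_h8 unit)) asmS H11.cert H13.dRat) gAlg) (fin2B asmB)
    gAlg

end Pool.Agent.Results.MP_5b1cbc_ag.MixedTowers
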